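import Pool.Agent.N915.OP.Main

/-!
# MP_768c9c_nt: the answer is negative for functions completely multiplicative away from one prime
-/

set_option autoImplicit false

namespace Pool.Agent.Results.MP_768c9c_nt.AwayFromOnePrime

open Filter Topology Finset Asymptotics

/-- `f` (only its values at `n ≥ 1` matter) is a CMO function except possibly at the prime `l`:
`f(1) = 1`; `f(mn) = f(m) f(n)` whenever `l ∤ m`; `f(l), f(l²), f(l³), …` is a geometric
progression; `∑ f(n)` converges to `0`; and for every prime `p` the local series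
`∑_k f(p ^ k)` converges to a nonzero value. -/
structure IsCMOAway (l : ℕ) (f : ℕ → ℂ) : Prop where
  one : f 1 = 1
  mul : ∀ m n : ℕ, 1 ≤ m → 1 ≤ n → ¬ l ∣ m → f (m * n) = f m * f n
  geom : ∃ t : ℂ, ∀ k : ℕ, f (l ^ (k + 2)) = t * f (l ^ (k + 1))
  sum_zero : Tendsto (fun N : ℕ => ∑ n ∈ Icc 1 N, f n) atTop (𝓝 0)
  local_ne_zero : ∀ p : ℕ, p.Prime →
    ∃ L : ℂ, L ≠ 0 ∧ Tendsto (fun K : ℕ => ∑ k ∈ range K, f (p ^ k)) atTop (𝓝 L)

/-- the partial sum `S_f(x) = ∑_{n ≤ x} f(n)` -/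
noncomputable def partialSum (f : ℕ → ℂ) (x : ℝ) : ℂ := ∑ n ∈ Icc 1 ⌊x⌋₊, f n

/-- Unconditionally, for every prime `l` there is a function `f`, completely multiplicative away
from `l` and with sum zero in the sense of `IsCMOAway`, such that `|S_f(x)| ≤ C x^(-1/2-c)` for all
`x ≥ 1`, with constants `c, C > 0`; in particular `S_f(x) = o(x^(-1/2))`. -/
theorem result : ∀ l : ℕ, l.Prime → ∃ f : ℕ → ℂ, IsCMOAway l f ∧
    (∃ c C : ℝ, 0 < c ∧ 0 < C ∧
      ∀ x : ℝ, 1 ≤ x → ‖partialSum f x‖ ≤ C * x ^ (-(1 / 2 : ℝ) - c)) ∧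
    (partialSum f) =o[atTop] (fun x : ℝ => x ^ (-(1 / 2 : ℝ))) := by
  intro l hl
  obtain ⟨f, h1, hmul, hgeom, hloc, c, C, hc, hC, hb⟩ := Pool.Agent.N915.OP.concl l hl
  have hsum : Tendsto (fun N : ℕ => ∑ n ∈ Icc 1 N, f n) atTop (𝓝 0) := by
    have h2 : Tendsto (fun N : ℕ => C * (N : ℝ) ^ (-(1 / 2 : ℝ) - c)) atTop (𝓝 0) := by
      have h3 : Tendsto (fun x : ℝ => x ^ (-(1 / 2 + c))) atTop (𝓝 0) :=
        tendsto_rpow_neg_atTop (by positivity)
      have h4 := (h3.comp tendsto_natCast_atTop_atTop).const_mul C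
      rw [mul_zero] at h4
      refine h4.congr fun N => ?_
      simp only [Function.comp]
      congr 2
      ring
    rw [tendsto_zero_iff_norm_tendsto_zero]
    refine squeeze_zero' (Eventually.of_forall fun N => norm_nonneg _) ?_ h2
    filter_upwards [eventually_ge_atTop 1] with N hN
    exact hb N hN
  have hb' : ∀ x : ℝ, 1 ≤ x → ‖partialSum f x‖ ≤ (C * (2 : ℝ) ^ (1 / 2 + c)) *
      x ^ (-(1 / 2 : ℝ) - c) := by
    intro x hx
    have hfl : 1 ≤ ⌊x⌋₊ := by rwa [Nat.one_le_floor_iff]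
    have h2 := hb ⌊x⌋₊ hfl
    have h3 : x / 2 ≤ ⌊x⌋₊ := by
      have := Nat.lt_floor_add_one x
      have h4 : (1 : ℝ) ≤ ⌊x⌋₊ := by exact_mod_cast hfl
      linarith
    have h5 : (⌊x⌋₊ : ℝ) ^ (-(1 / 2 : ℝ) - c) ≤ (x / 2) ^ (-(1 / 2 : ℝ) - c) :=
      Real.rpow_le_rpow_of_nonpos (by linarith) h3 (by linarith)
    have h6 : (x / 2) ^ (-(1 / 2 : ℝ) - c) = (2 : ℝ) ^ (1 / 2 + c) * x ^ (-(1 / 2) - c) := by
      rw [Real.div_rpow (by linarith) (by norm_num), div_eq_mul_inv, ← Real.rpow_neg (by norm_num),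
        mul_comm]
      congr 2
      ring
    calc ‖partialSum f x‖ ≤ C * (⌊x⌋₊ : ℝ) ^ (-(1 / 2 : ℝ) - c) := h2
      _ ≤ C * ((2 : ℝ) ^ (1 / 2 + c) * x ^ (-(1 / 2) - c)) := by
          rw [← h6]
          exact mul_le_mul_of_nonneg_left h5 hC.le
      _ = C * (2 : ℝ) ^ (1 / 2 + c) * x ^ (-(1 / 2) - c) := by ring
  refine ⟨f, ⟨h1, hmul, hgeom, hsum, hloc⟩, ⟨c, C * (2 : ℝ) ^ (1 / 2 + c), hc, by positivity,
    hb'⟩, ?_⟩
  have e1 : (partialSum f) =O[atTop] (fun x : ℝ => x ^ (-(1 / 2 : ℝ) - c)) := by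
    refine IsBigO.of_bound (C * (2 : ℝ) ^ (1 / 2 + c)) ?_
    filter_upwards [eventually_ge_atTop (1 : ℝ)] with x hx
    rw [Real.norm_of_nonneg (by positivity)]
    exact hb' x hx
  refine e1.trans_isLittleO ?_
  rw [isLittleO_iff_tendsto']
  · have h5 : Tendsto (fun x : ℝ => x ^ (-c)) atTop (𝓝 0) := tendsto_rpow_neg_atTop hc
    refine h5.congr' ?_
    filter_upwards [eventually_gt_atTop (0 : ℝ)] with x hx
    rw [← Real.rpow_sub hx]
    congr 1
    ring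
  · filter_upwards [eventually_gt_atTop (0 : ℝ)] with x hx h0
    exact absurd h0 (by positivity)

end Pool.Agent.Results.MP_768c9c_nt.AwayFromOnePrime
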