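import Pool.Agent.N408.CMO.Final

/-!
# MP_768c9c_nt: an affirmative answer to Q1 is incompatible with the Riemann hypothesis
-/

set_option autoImplicit false

namespace Pool.Agent.Results.MP_768c9c_nt.QuasiRHDichotomy

open Filter Topology Finset Asymptotics

/-- `f` (only its values at `n ≥ 1` matter) is a CMO function: completely multiplicative, with
`∑ f(n)` convergent to `0` -/
structure IsCMO (f : ℕ → ℂ) : Prop where
  one : f 1 = 1
  mul : ∀ m n : ℕ, 1 ≤ m → 1 ≤ n → f (m * n) = f m * f n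
  sum_zero : Tendsto (fun N : ℕ => ∑ n ∈ Icc 1 N, f n) atTop (𝓝 0)

/-- the partial sum `S_f(x) = ∑_{n ≤ x} f(n)` -/
noncomputable def partialSum (f : ℕ → ℂ) (x : ℝ) : ℂ := ∑ n ∈ Icc 1 ⌊x⌋₊, f n

/-- `S_f(x) = Ω(g(x))` in the Hardy–Littlewood sense: `S_f(x)` is not `o(g(x))` -/
def Omega (f : ℕ → ℂ) (g : ℝ → ℝ) : Prop := ¬ (fun x : ℝ => partialSum f x) =o[atTop] g

/-- the affirmative answer to Q1 -/
def Affirmative : Prop := ∀ f : ℕ → ℂ, IsCMO f → Omega f (fun x => x ^ (-(1 / 2) : ℝ))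

/-- There is an absolute constant `κ > 0` such that at least one of the following holds:
* there is a CMO function `f` with `|S_f(x)| ≤ C x^(-1/2-c)` for all real `x ≥ 1`, for some
  constants `c, C > 0` (so that the answer to Q1 is negative);
* the Riemann zeta function has a zero with real part `> 1/2 + κ`.
In particular, if `S_f(x) = Ω(x^(-1/2))` for every CMO function `f`, then `ζ` has a zero with real
part `> 1/2 + κ`, and the Riemann hypothesis is false. -/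
theorem result : ∃ κ : ℝ, 0 < κ ∧
    ((∃ f : ℕ → ℂ, IsCMO f ∧ ∃ c C : ℝ, 0 < c ∧ 0 < C ∧
        ∀ x : ℝ, 1 ≤ x → ‖partialSum f x‖ ≤ C * x ^ (-(1 / 2) - c)) ∨
      ∃ ρ : ℂ, riemannZeta ρ = 0 ∧ 1 / 2 + κ < ρ.re) ∧
    (Affirmative → (∃ ρ : ℂ, riemannZeta ρ = 0 ∧ 1 / 2 + κ < ρ.re) ∧ ¬ RiemannHypothesis) := by
  obtain ⟨κ, hκ, hmain⟩ := Pool.Agent.N408.CMO.Final.main
  have h1 : (∀ s : ℂ, 1 / 2 + κ < s.re → s ≠ 1 → riemannZeta s ≠ 0) →
      ∃ f : ℕ → ℂ, IsCMO f ∧ ∃ c C : ℝ, 0 < c ∧ 0 < C ∧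
        ∀ x : ℝ, 1 ≤ x → ‖partialSum f x‖ ≤ C * x ^ (-(1 / 2) - c) := by
    intro hQ
    obtain ⟨f, hf1, hfm, c, C, hc, hC, hb⟩ := hmain hQ
    have hsum : Tendsto (fun N : ℕ => ∑ n ∈ Icc 1 N, f n) atTop (𝓝 0) := by
      have h2 : Tendsto (fun N : ℕ => C * (N : ℝ) ^ (-(1 / 2 : ℝ) - c)) atTop (𝓝 0) := by
        have h3 : Tendsto (fun x : ℝ => x ^ (-(1 / 2 + c))) atTop (𝓝 0) :=
          tendsto_rpow_neg_atTop (by positivity)
        have h4 := (h3.comp tendsto_natCast_atTop_atTop).const_mul C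
        rw [mul_zero] at h4
        refine h4.congr fun N => ?_
        simp only [Function.comp]
        congr 2
        ring
      rw [tendsto_zero_iff_norm_tendsto_zero]
      refine squeeze_zero' (Eventually.of_forall fun N => norm_nonneg _) ?_ h2
      filter_upwards [eventually_ge_atTop 1] with N hN
      exact hb N hN
    refine ⟨f, ⟨hf1, fun m n hm hn => hfm m n hm hn, hsum⟩, c, C * (2 : ℝ) ^ (1 / 2 + c), hc,
      by positivity, fun x hx => ?_⟩
    have hfl : 1 ≤ ⌊x⌋₊ := by rwa [Nat.one_le_floor_iff]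
    have h2 := hb ⌊x⌋₊ hfl
    have h3 : x / 2 ≤ ⌊x⌋₊ := by
      have := Nat.lt_floor_add_one x
      have h4 : (1 : ℝ) ≤ ⌊x⌋₊ := by exact_mod_cast hfl
      linarith
    have h5 : (⌊x⌋₊ : ℝ) ^ (-(1 / 2 : ℝ) - c) ≤ (x / 2) ^ (-(1 / 2 : ℝ) - c) :=
      Real.rpow_le_rpow_of_nonpos (by linarith) h3 (by linarith)
    have h6 : (x / 2) ^ (-(1 / 2 : ℝ) - c) = (2 : ℝ) ^ (1 / 2 + c) * x ^ (-(1 / 2 : ℝ) - c) := by
      rw [Real.div_rpow (by linarith) (by norm_num), div_eq_mul_inv, ← Real.rpow_neg (by norm_num),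
        mul_comm]
      congr 2
      ring
    calc ‖partialSum f x‖ ≤ C * (⌊x⌋₊ : ℝ) ^ (-(1 / 2 : ℝ) - c) := h2
      _ ≤ C * ((2 : ℝ) ^ (1 / 2 + c) * x ^ (-(1 / 2 : ℝ) - c)) := by
          rw [← h6]
          exact mul_le_mul_of_nonneg_left h5 hC.le
      _ = C * (2 : ℝ) ^ (1 / 2 + c) * x ^ (-(1 / 2) - c) := by ring
  have h2 : Affirmative → ∃ ρ : ℂ, riemannZeta ρ = 0 ∧ 1 / 2 + κ < ρ.re := by
    intro hA
    by_contra hcon
    push Not at hcon
    obtain ⟨f, hf, c, C, hc, hC, hb⟩ := h1 (fun s hs _ h0 => absurd hs (not_lt.2 (hcon s h0)))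
    refine hA f hf ?_
    rw [isLittleO_iff]
    intro ε hε
    have h3 : Tendsto (fun x : ℝ => C * x ^ (-c)) atTop (𝓝 0) := by
      have h4 := (tendsto_rpow_neg_atTop hc).const_mul C
      rwa [mul_zero] at h4
    filter_upwards [h3.eventually_le_const hε, eventually_ge_atTop 1] with x hx hx1
    have hx0 : 0 < x := by linarith
    rw [Real.norm_of_nonneg (by positivity)]
    refine (hb x hx1).trans ?_
    have h5 : x ^ (-(1 / 2) - c) = x ^ (-c) * x ^ (-(1 / 2) : ℝ) := by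
      rw [← Real.rpow_add hx0]
      congr 1
      ring
    rw [h5, ← mul_assoc]
    exact mul_le_mul_of_nonneg_right hx (by positivity)
  refine ⟨κ, hκ, ?_, fun hA => ⟨h2 hA, fun hRH => ?_⟩⟩
  · by_cases hz : ∃ ρ : ℂ, riemannZeta ρ = 0 ∧ 1 / 2 + κ < ρ.re
    · exact Or.inr hz
    · push Not at hz
      exact Or.inl (h1 fun s hs _ h0 => absurd hs (not_lt.2 (hz s h0)))
  obtain ⟨ρ, h0, hre⟩ := h2 hA
  have h3 : ρ.re = 1 / 2 := by
    refine hRH ρ h0 ?_ ?_
    · rintro ⟨n, hn⟩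
      rw [hn] at hre
      have : ((-2 : ℂ) * ((n : ℂ) + 1)).re = -2 * ((n : ℝ) + 1) := by simp
      rw [this] at hre
      have hn0 : (0 : ℝ) ≤ n := Nat.cast_nonneg n
      linarith
    · rintro rfl
      exact riemannZeta_one_ne_zero h0
  linarith

end Pool.Agent.Results.MP_768c9c_nt.QuasiRHDichotomy
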